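import Pool.Agent.Helper58.QD.StL

/-! Project QD, module Pig: pigeonhole for the scales. -/

set_option autoImplicit false

open Helper62.LH Helper62.DSH Helper58.QD MeasureTheory Set Filter Topology
open scoped ContDiff ENNReal

namespace Pool.Agent.Helper21.QD

private theorem det_sc {M : ℕ} (C : ℝ) (S : Fin M → Fin M → ℝ) :
    (Matrix.of (fun k l => C * S k l)).det = C ^ M * (Matrix.of S).det := by
  have h : Matrix.of (fun k l => C * S k l) = C • Matrix.of S := by
    ext k l
    simp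
  rw [h, Matrix.det_smul, Fintype.card_fin]

private theorem qf_sc {M : ℕ} (C : ℝ) (S : Fin M → Fin M → ℝ) (c : Fin M → ℝ) :
    qf (fun k l => C * S k l) c = C * qf S c := by
  unfold qf
  rw [Finset.mul_sum]
  refine Finset.sum_congr rfl fun i _ => ?_
  rw [Finset.mul_sum]
  refine Finset.sum_congr rfl fun j _ => ?_
  ring

theorem hPig : SDet → SPig := by
  intro hDet M C hM hC A D H i0 hSy hnn hA hD hH hHA i1
  obtain ⟨d1, d2, d3⟩ := hDet M
  have hC0 : 0 < C := lt_of_lt_of_le one_pos hC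
  have hCM : 0 < C ^ M := pow_pos hC0 M
  have hsy : ∀ S : Fin M → Fin M → ℝ, Sy S → Sy (fun k l => C * S k l) := by
    intro S hS i j
    show C * S i j = C * S j i
    rw [hS i j]
  have e1 : ∀ i, i0 ≤ i → (Matrix.of (D i)).det ≤ C ^ M * (Matrix.of (A i)).det := by
    intro i hi
    rw [← det_sc]
    exact d1 _ _ (hSy i).2.1 (hsy _ (hSy i).1) (fun c => (hnn i c).2.1)
      (fun c => by rw [qf_sc]; exact hD i hi c)
  have e2 : ∀ i, i0 ≤ i → (Matrix.of (H i)).det ≤ C ^ M * (Matrix.of (D i)).det := by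
    intro i hi
    rw [← det_sc]
    exact d1 _ _ (hSy i).2.2 (hsy _ (hSy i).2.1) (fun c => (hnn i c).2.2)
      (fun c => by rw [qf_sc]; exact hH i hi c)
  have e3 : ∀ i, i0 ≤ i → 1 ≤ (Matrix.of (A i)).det := fun i hi => d3 _ (hSy i).1 (hA i hi)
  have claim : ∃ i, i0 ≤ i ∧ i1 ≤ i ∧
      (Matrix.of (D i)).det < (2 * C) ^ M * (Matrix.of (A (i + 1))).det := by
    by_contra hcon
    push_neg at hcon
    have h1 : ∀ i, max i0 i1 ≤ i →
        2 * (Matrix.of (A (i + 1))).det ≤ (Matrix.of (A i)).det := by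
      intro i hi
      have hi0 : i0 ≤ i := le_trans (le_max_left _ _) hi
      have hi1 : i1 ≤ i := le_trans (le_max_right _ _) hi
      have g1 := hcon i hi0 hi1
      have g2 := e1 i hi0
      have g3 := e3 (i + 1) (by omega)
      have g4 : C ^ M * (2 ^ M * (Matrix.of (A (i + 1))).det) ≤
          C ^ M * (Matrix.of (A i)).det := by
        refine le_trans (le_of_eq ?_) (g1.trans g2)
        rw [mul_pow]
        ring
      have g5 := le_of_mul_le_mul_left g4 hCM
      have g6 : (2 : ℝ) ≤ 2 ^ M := by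
        calc (2 : ℝ) = 2 ^ 1 := (pow_one 2).symm
          _ ≤ 2 ^ M := pow_le_pow_right₀ one_le_two hM
      have g7 : 2 * (Matrix.of (A (i + 1))).det ≤ 2 ^ M * (Matrix.of (A (i + 1))).det :=
        mul_le_mul_of_nonneg_right g6 (le_trans zero_le_one g3)
      exact g7.trans g5
    have h2 : ∀ k : ℕ, 2 ^ k * (Matrix.of (A (max i0 i1 + k))).det ≤
        (Matrix.of (A (max i0 i1))).det := by
      intro k
      induction k with
      | zero => simp
      | succ k ih =>
        have g := h1 (max i0 i1 + k) (Nat.le_add_right _ _)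
        have hp : (0 : ℝ) ≤ 2 ^ k := by positivity
        calc 2 ^ (k + 1) * (Matrix.of (A (max i0 i1 + (k + 1)))).det
            = 2 ^ k * (2 * (Matrix.of (A (max i0 i1 + k + 1))).det) := by
              rw [pow_succ, mul_assoc]; rfl
          _ ≤ 2 ^ k * (Matrix.of (A (max i0 i1 + k))).det := mul_le_mul_of_nonneg_left g hp
          _ ≤ _ := ih
    obtain ⟨k, hk⟩ := pow_unbounded_of_one_lt (Matrix.of (A (max i0 i1))).det
      (one_lt_two : (1 : ℝ) < 2)
    have g1 := h2 k
    have g2 := e3 (max i0 i1 + k) (le_trans (le_max_left _ _) (Nat.le_add_right _ _))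
    have g3 : (2 : ℝ) ^ k * 1 ≤ 2 ^ k * (Matrix.of (A (max i0 i1 + k))).det :=
      mul_le_mul_of_nonneg_left g2 (by positivity)
    rw [mul_one] at g3
    exact absurd (lt_of_lt_of_le hk (g3.trans g1)) (lt_irrefl _)
  obtain ⟨i, hi0, hi1, hlt⟩ := claim
  refine ⟨i, hi0, hi1, ?_⟩
  have hdet : (Matrix.of (H i)).det ≤ (2 * C ^ 2) ^ M * (Matrix.of (A (i + 1))).det := by
    calc (Matrix.of (H i)).det ≤ C ^ M * (Matrix.of (D i)).det := e2 i hi0
      _ ≤ C ^ M * ((2 * C) ^ M * (Matrix.of (A (i + 1))).det) :=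
        mul_le_mul_of_nonneg_left hlt.le hCM.le
      _ = _ := by
        rw [← mul_assoc, ← mul_pow]
        congr 2
        ring
  exact d2 (A (i + 1)) (H i) (2 * C ^ 2) hM (by positivity) (hSy (i + 1)).1 (hSy i).2.2
    (fun c => (hnn (i + 1) c).1)
    (fun c hc => by
      have g1 := hA (i + 1) (by omega) c
      have g2 := hHA i hi0 c
      have g3 : 0 < ∑ k, c k ^ 2 := by
        obtain ⟨j, hj⟩ := Function.ne_iff.1 hc
        exact Finset.sum_pos' (fun k _ => sq_nonneg _)
          ⟨j, Finset.mem_univ j, by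
            have : c j ≠ 0 := hj
            positivity⟩
      exact lt_of_lt_of_le g3 (g1.trans g2)) hdet

end Pool.Agent.Helper21.QD
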